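import Pool.Agent.W670.ML.Defs2

/-!
ML2-AL: the strong uniform bound implies the upper half of Malle's conjecture over every field.
-/

set_option autoImplicit false

namespace Pool.Agent.W52.ML2

open NumberField
open Pool.Agent.W670.ML

theorem al : S_AL := by
  intro hSU K _ _ n G hn hG m hm ε hε
  obtain ⟨c, hc, h⟩ := hSU (Module.finrank ℚ K) n G hn hG m hm ε hε
  have hd : 0 ≤ ((discr K).natAbs : ℝ) ^ ε := Real.rpow_nonneg (Nat.cast_nonneg _) _
  refine ⟨c * ((discr K).natAbs : ℝ) ^ ε + 1, by positivity, 1, fun X hX => ?_⟩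
  have hX0 : 0 < X := by linarith
  have h1 := h K rfl X hX0
  have h2 : 0 < X ^ ((1 : ℝ) / (m : ℝ) + ε) := Real.rpow_pos_of_pos hX0 _
  calc (N K n G X : ℝ) ≤ c * ((discr K).natAbs : ℝ) ^ ε * X ^ ((1 : ℝ) / (m : ℝ) + ε) := h1
    _ < (c * ((discr K).natAbs : ℝ) ^ ε + 1) * X ^ ((1 : ℝ) / (m : ℝ) + ε) := by
        nlinarith

end Pool.Agent.W52.ML2
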